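import Pool.Agent.N585.FP.Asm
import Pool.Agent.N160.FPgeo
import Pool.Agent.N457.FP.Twin
import Pool.Agent.N691.FPKer
import Pool.Agent.N196.FP4
import Pool.Agent.N46.FP5
import Pool.Agent.N717.FP6
import Pool.Agent.N571.FP.Comp

/-!
# 2-layer fan-planar graphs are recognisable in polynomial time

A graph is 2-layer fan-planar (`TwoLayerFanPlanar`) when it has a fan-planar drawing in which every
vertex lies on one of two distinct horizontal lines and every edge is a straight segment joining
vertices on different lines.  The decision problem, for arbitrary finite simple graphs, is in `P`,
both for graphs given by adjacency matrices and for graphs given by the number of vertices (in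
unary) and the list of edges.

Algorithm.  A drawing is a bipartition with an order on each side such that the edges crossing an
edge pairwise have a common endpoint.  A vertex with three twins can be deleted, since it can be
inserted into any drawing immediately after the middle one of the three twins (at most two
neighbours are possible).  When no four vertices have the same neighbourhood, all degrees are at
most 16, since among the neighbours of a vertex all but four have one of at most four
neighbourhoods.  Then the two orders can be merged into one order of the vertices of a connected
component in which adjacent vertices have distance at most 64, since an edge is crossed by at most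
16 edges.  Such an order is found by dynamic programming over windows of 257 consecutive positions:
it is enough that every vertex of the sequence sees each of its neighbours exactly once within
distance 64, because the sequence is then a covering of the connected component with as many
elements as the component has vertices, so it is a bijection.
-/

set_option autoImplicit false

namespace Pool.Agent.Results.MP_f9c574_lc.TwoLayerFanPlanarInP

open Pool.Agent.NPC Pool.Agent.H622R2 Pool.Agent.N585.FP Pool.Agent.NPC.N585FP

/-- The graph with the vertices `0, ..., n - 1` and the edges given by the list `E` (loops and pairs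
with an entry which is not a vertex are ignored). -/
def edgeGraph (n : ℕ) (E : List (ℕ × ℕ)) : SimpleGraph (Fin n) where
  Adj i j := i ≠ j ∧ ((i.1, j.1) ∈ E ∨ (j.1, i.1) ∈ E)
  symm := ⟨fun _ _ h => ⟨h.1.symm, h.2.symm⟩⟩
  loopless := ⟨fun _ h => h.1 rfl⟩

/-- The adjacency matrix of `edgeGraph`. -/
def edgeMat (x : List Unit × List (ℕ × ℕ)) : List (List Bool) :=
  mat (List.range x.1.length) fun i j => decide ((i, j) ∈ x.2)

theorem stmKer' : StmKer := Pool.Agent.N691.FPKer.stmKer Pool.Agent.N457.FP.stmTwin

theorem alg_iff {n : ℕ} (G : SimpleGraph (Fin n)) (M : List (List Bool)) (hM : M.length = n)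
    (h : ∀ i j : Fin n, G.Adj i j ↔ (natG M).Adj i j) :
    TwoLayerFanPlanar G ↔ algB 64 128 M = true := by
  subst hM
  rw [← algB_iff Pool.Agent.N160.FPgeo.stmGeo stmKer' Pool.Agent.N196.FP4.stmDeg
    Pool.Agent.N46.FP5.stmBand Pool.Agent.N717.FP6.stmLoc Pool.Agent.N717.FP6.stmLoc'
    Pool.Agent.N571.FP.stmComp M]
  have h1 := Pool.Agent.N160.FPgeo.stmGeo M.length G (natG M) h
  have h2 := Pool.Agent.N160.FPgeo.stmGeo M.length (matGraph M) (natG M) (by
    intro i j
    simp only [matGraph, natG, adjB, Bool.and_eq_true, Bool.or_eq_true, Bool.not_eq_true',
      decide_eq_false_iff_not, ne_eq, Fin.ext_iff])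
  rw [h1, h2]

/-- **It can be decided in polynomial time whether a finite simple graph is 2-layer fan-planar**:
the problem is in `P`, for graphs given by adjacency matrices and for graphs given by the number of
vertices in unary and the list of the edges. -/
theorem result :
    InPP (fun M : List (List Bool) => TwoLayerFanPlanar (matGraph M)) ∧
    InPP (fun x : List Unit × List (ℕ × ℕ) => TwoLayerFanPlanar (edgeGraph x.1.length x.2)) := by
  constructor
  · refine inPP_of (poly_algB 64 128) fun M => alg_iff (matGraph M) M rfl ?_
    intro i j
    simp only [matGraph, natG, adjB, Bool.and_eq_true, Bool.or_eq_true, Bool.not_eq_true',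
      decide_eq_false_iff_not, ne_eq, Fin.ext_iff]
  · have hp : Poly edgeMat := by
      unfold edgeMat mat
      fun_prop
    refine inPP_of (d := fun x => algB 64 128 (edgeMat x)) ((poly_algB 64 128).comp hp) fun x => ?_
    have hlen : (edgeMat x).length = x.1.length := by simp [edgeMat, mat]
    refine alg_iff _ (edgeMat x) hlen fun i j => ?_
    have he : ∀ i j : Fin x.1.length, entry (edgeMat x) i j = decide ((i.1, j.1) ∈ x.2) := by
      intro i j
      unfold edgeMat
      rw [entry_mat _ _ _ _ (by simp) (by simp)]
      simp
    simp only [edgeGraph, natG, adjB, Bool.and_eq_true, Bool.or_eq_true, Bool.not_eq_true',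
      decide_eq_false_iff_not, ne_eq, Fin.ext_iff, he, decide_eq_true_eq]

end Pool.Agent.Results.MP_f9c574_lc.TwoLayerFanPlanarInP
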